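import Mathlib

/-!
# Rudin-Shapiro polynomials of an isometry: an operator which is not regular
-/

set_option autoImplicit false

namespace Pool.Agent.Q202.RS

open Filter Topology
open scoped InnerProductSpace

/-- coefficients of the Rudin-Shapiro polynomials -/
noncomputable def pq : ℕ → (ℕ → ℂ) × (ℕ → ℂ)
  | 0 => (fun j => if j = 0 then 1 else 0, fun j => if j = 0 then 1 else 0)
  | k + 1 => (fun j => if j < 2 ^ k then (pq k).1 j else (pq k).2 (j - 2 ^ k),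
      fun j => if j < 2 ^ k then (pq k).1 j else -(pq k).2 (j - 2 ^ k))

lemma pq_norm (k : ℕ) : ∀ j < 2 ^ k, ‖(pq k).1 j‖ = 1 ∧ ‖(pq k).2 j‖ = 1 := by
  induction k with
  | zero =>
    intro j hj
    have : j = 0 := by simpa using hj
    subst this
    simp [pq]
  | succ k ih =>
    intro j hj
    simp only [pq]
    by_cases h : j < 2 ^ k
    · rw [if_pos h, if_pos h]
      exact ⟨(ih j h).1, (ih j h).1⟩
    · rw [if_neg h, if_neg h, norm_neg]
      have h2 : j - 2 ^ k < 2 ^ k := by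
        rw [pow_succ] at hj
        omega
      exact ⟨(ih _ h2).2, (ih _ h2).2⟩

lemma pq_stable {k j : ℕ} (h : j < 2 ^ k) (m : ℕ) : (pq (k + m)).1 j = (pq k).1 j := by
  induction m with
  | zero => rfl
  | succ m ih =>
    have h2 : j < 2 ^ (k + m) := lt_of_lt_of_le h (Nat.pow_le_pow_right two_pos (by omega))
    show (pq (k + m + 1)).1 j = _
    simp only [pq]
    rw [if_pos h2, ih]

/-- the Rudin-Shapiro sequence -/
noncomputable def r (j : ℕ) : ℂ := (pq j).1 j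

lemma pq_eq_r {k j : ℕ} (h : j < 2 ^ k) : (pq k).1 j = r j := by
  have h1 := pq_stable h j
  have h2 := pq_stable (Nat.lt_two_pow_self (n := j)) k
  rw [add_comm] at h2
  rw [← h1, h2]
  rfl

lemma norm_r (j : ℕ) : ‖r j‖ = 1 := (pq_norm j j Nat.lt_two_pow_self).1

variable {H : Type} [NormedAddCommGroup H] [InnerProductSpace ℂ H]

/-- the Rudin-Shapiro polynomials of the operator `U` -/
noncomputable def PQ (U : H →L[ℂ] H) : ℕ → (H →L[ℂ] H) × (H →L[ℂ] H)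
  | 0 => (1, 1)
  | k + 1 => ((PQ U k).1 + U ^ (2 ^ k) * (PQ U k).2, (PQ U k).1 - U ^ (2 ^ k) * (PQ U k).2)

lemma norm_pow_apply {U : H →L[ℂ] H} (hU : ∀ x, ‖U x‖ = ‖x‖) (n : ℕ) (x : H) :
    ‖(U ^ n) x‖ = ‖x‖ := by
  induction n with
  | zero => rfl
  | succ n ih =>
    rw [pow_succ']
    show ‖U ((U ^ n) x)‖ = _
    rw [hU, ih]

lemma PQ_norm {U : H →L[ℂ] H} (hU : ∀ x, ‖U x‖ = ‖x‖) (k : ℕ) (x : H) :
    ‖(PQ U k).1 x‖ ^ 2 + ‖(PQ U k).2 x‖ ^ 2 = 2 ^ (k + 1) * ‖x‖ ^ 2 := by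
  induction k with
  | zero =>
    show ‖x‖ ^ 2 + ‖x‖ ^ 2 = 2 ^ 1 * ‖x‖ ^ 2
    ring
  | succ k ih =>
    have h1 : (PQ U (k + 1)).1 x = (PQ U k).1 x + (U ^ (2 ^ k)) ((PQ U k).2 x) := rfl
    have h2 : (PQ U (k + 1)).2 x = (PQ U k).1 x - (U ^ (2 ^ k)) ((PQ U k).2 x) := rfl
    rw [h1, h2]
    have h3 := parallelogram_law_with_norm ℂ ((PQ U k).1 x) ((U ^ (2 ^ k)) ((PQ U k).2 x))
    rw [norm_pow_apply hU] at h3
    calc _ = 2 * (‖(PQ U k).1 x‖ ^ 2 + ‖(PQ U k).2 x‖ ^ 2) := by nlinarith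
      _ = _ := by rw [ih]; ring

lemma PQ_le {U : H →L[ℂ] H} (hU : ∀ x, ‖U x‖ = ‖x‖) (k : ℕ) : ‖(PQ U (2 * k)).1‖ ≤ 2 * 2 ^ k := by
  refine ContinuousLinearMap.opNorm_le_bound _ (by positivity) fun x => ?_
  have h1 := PQ_norm hU (2 * k) x
  have h2 : ‖(PQ U (2 * k)).1 x‖ ^ 2 ≤ (2 * 2 ^ k * ‖x‖) ^ 2 := by
    have h3 : (2 : ℝ) ^ (2 * k + 1) = 2 * (2 ^ k) ^ 2 := by
      rw [pow_succ, pow_mul', mul_comm]
    rw [h3] at h1
    have h4 : 0 ≤ ((2:ℝ) ^ k) ^ 2 * ‖x‖ ^ 2 := by positivity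
    have h5 : (2 * 2 ^ k * ‖x‖) ^ 2 = 4 * (((2:ℝ) ^ k) ^ 2 * ‖x‖ ^ 2) := by ring
    rw [h5]
    nlinarith [sq_nonneg (‖(PQ U (2 * k)).2 x‖)]
  exact (sq_le_sq₀ (norm_nonneg _) (by positivity)).1 h2

lemma PQ_sum (U : H →L[ℂ] H) (k : ℕ) :
    (PQ U k).1 = ∑ j ∈ Finset.range (2 ^ k), (pq k).1 j • U ^ j ∧
      (PQ U k).2 = ∑ j ∈ Finset.range (2 ^ k), (pq k).2 j • U ^ j := by
  induction k with
  | zero => simp [PQ, pq]
  | succ k ih =>
    have hsplit : ∀ c : ℕ → ℂ, ∑ j ∈ Finset.range (2 ^ (k + 1)), c j • U ^ j =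
        ∑ j ∈ Finset.range (2 ^ k), c j • U ^ j +
          ∑ j ∈ Finset.range (2 ^ k), c (2 ^ k + j) • U ^ (2 ^ k + j) := by
      intro c
      rw [pow_succ, mul_two, Finset.sum_range_add]
    have h1 : ∀ j ∈ Finset.range (2 ^ k), (pq (k + 1)).1 j • U ^ j = (pq k).1 j • U ^ j := by
      intro j hj
      simp only [pq]
      rw [if_pos (Finset.mem_range.1 hj)]
    have h2 : ∀ j ∈ Finset.range (2 ^ k), (pq (k + 1)).2 j • U ^ j = (pq k).1 j • U ^ j := by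
      intro j hj
      simp only [pq]
      rw [if_pos (Finset.mem_range.1 hj)]
    have h3 : ∀ j ∈ Finset.range (2 ^ k), (pq (k + 1)).1 (2 ^ k + j) • U ^ (2 ^ k + j) =
        U ^ (2 ^ k) * ((pq k).2 j • U ^ j) := by
      intro j _
      simp only [pq]
      rw [if_neg (by omega), Nat.add_sub_cancel_left, mul_smul_comm, pow_add]
    have h4 : ∀ j ∈ Finset.range (2 ^ k), (pq (k + 1)).2 (2 ^ k + j) • U ^ (2 ^ k + j) =
        -(U ^ (2 ^ k) * ((pq k).2 j • U ^ j)) := by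
      intro j _
      simp only [pq]
      rw [if_neg (by omega), Nat.add_sub_cancel_left, mul_smul_comm, pow_add, neg_smul]
    constructor
    · rw [hsplit, Finset.sum_congr rfl h1, Finset.sum_congr rfl h3, ← Finset.mul_sum, ← ih.1,
        ← ih.2]
      rfl
    · rw [hsplit, Finset.sum_congr rfl h2, Finset.sum_congr rfl h4, Finset.sum_neg_distrib,
        ← Finset.mul_sum, ← ih.1, ← ih.2, ← sub_eq_add_neg]
      rfl

lemma PQ_eq (U : H →L[ℂ] H) (k : ℕ) :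
    (PQ U k).1 = ∑ j ∈ Finset.range (2 ^ k), r j • U ^ j := by
  rw [(PQ_sum U k).1]
  exact Finset.sum_congr rfl fun j hj => by rw [pq_eq_r (Finset.mem_range.1 hj)]

/-- the operator `∑ 3^(-k) P_(2k)(U)` -/
noncomputable def TU (U : H →L[ℂ] H) : H →L[ℂ] H :=
  ∑' k : ℕ, ((1 / 3 : ℂ) ^ k) • (PQ U (2 * k)).1

lemma norm_third (k : ℕ) : ‖(1 / 3 : ℂ) ^ k‖ = (1 / 3 : ℝ) ^ k := by
  rw [norm_pow]
  norm_num

variable [CompleteSpace H]

lemma summable_TU {U : H →L[ℂ] H} (hU : ∀ x, ‖U x‖ = ‖x‖) :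
    Summable fun k : ℕ => ((1 / 3 : ℂ) ^ k) • (PQ U (2 * k)).1 := by
  refine Summable.of_norm_bounded (g := fun k : ℕ => 2 * (2 / 3 : ℝ) ^ k)
    ((summable_geometric_of_lt_one (by norm_num) (by norm_num)).mul_left 2) (fun k => ?_)
  rw [norm_smul, norm_third]
  calc (1 / 3 : ℝ) ^ k * ‖(PQ U (2 * k)).1‖ ≤ (1 / 3 : ℝ) ^ k * (2 * 2 ^ k) := by
        gcongr
        exact PQ_le hU k
    _ = 2 * (2 / 3 : ℝ) ^ k := by
        rw [div_pow, div_pow, one_pow]
        ring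

/-- entries of the operator -/
lemma entry {U : H →L[ℂ] H} (hU : ∀ x, ‖U x‖ = ‖x‖) {e : ℕ → H} (he : Orthonormal ℂ e)
    (hUe : ∀ n, U (e n) = e (n + 1)) (x d : ℕ) :
    HasSum (fun k : ℕ => (1 / 3 : ℂ) ^ k * (if d < 4 ^ k then r d else 0))
      ⟪e (x + d), TU U (e x)⟫_ℂ := by
  have hpow : ∀ j, (U ^ j) (e x) = e (x + j) := by
    intro j
    induction j with
    | zero => rfl
    | succ j ih =>
      rw [pow_succ']
      show U ((U ^ j) (e x)) = _
      rw [ih, hUe]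
      rfl
  have h1 : HasSum (fun k : ℕ => (((1 / 3 : ℂ) ^ k) • (PQ U (2 * k)).1) (e x)) (TU U (e x)) := by
    have h2 := (summable_TU hU).hasSum
    exact (ContinuousLinearMap.apply ℂ H (e x)).hasSum h2
  have h3 := (innerSL ℂ (e (x + d))).hasSum h1
  have h4 : (fun k : ℕ => (1 / 3 : ℂ) ^ k * (if d < 4 ^ k then r d else 0)) =
      fun k : ℕ => (innerSL ℂ (e (x + d))) ((((1 / 3 : ℂ) ^ k) • (PQ U (2 * k)).1) (e x)) := by
    funext k
    have h5 : (((1 / 3 : ℂ) ^ k) • (PQ U (2 * k)).1) (e x) =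
        ((1 / 3 : ℂ) ^ k) • ∑ j ∈ Finset.range (4 ^ k), r j • e (x + j) := by
      rw [PQ_eq, pow_mul]
      show ((1 / 3 : ℂ) ^ k) • (∑ j ∈ Finset.range ((2 ^ 2) ^ k), r j • U ^ j) (e x) = _
      rw [ContinuousLinearMap.sum_apply]
      congr 1
      refine Finset.sum_congr (by norm_num) fun j _ => ?_
      show r j • (U ^ j) (e x) = _
      rw [hpow]
    rw [h5, innerSL_apply_apply, inner_smul_right, inner_sum]
    congr 1
    have h6 : ∀ j ∈ Finset.range (4 ^ k), ⟪e (x + d), r j • e (x + j)⟫_ℂ =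
        if d = j then r j else 0 := by
      intro j _
      rw [inner_smul_right, orthonormal_iff_ite.1 he]
      by_cases h : d = j
      · rw [if_pos (by omega), if_pos h, mul_one]
      · rw [if_neg (by omega), if_neg h, mul_zero]
    rw [Finset.sum_congr rfl h6, Finset.sum_ite_eq]
    simp only [Finset.mem_range]
  rw [h4]
  exact h3

lemma norm_entry {U : H →L[ℂ] H} (hU : ∀ x, ‖U x‖ = ‖x‖) {e : ℕ → H} (he : Orthonormal ℂ e)
    (hUe : ∀ n, U (e n) = e (n + 1)) (x d K : ℕ) (hd : d < 4 ^ K) :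
    (1 / 3 : ℝ) ^ K ≤ ‖⟪e (x + d), TU U (e x)⟫_ℂ‖ := by
  have h1 := entry hU he hUe x d
  have hs : Summable fun k : ℕ => (1 / 3 : ℝ) ^ k * (if d < 4 ^ k then 1 else 0) := by
    refine Summable.of_nonneg_of_le (fun k => by positivity) (fun k => ?_)
      (summable_geometric_of_lt_one (show (0:ℝ) ≤ 1 / 3 by norm_num) (by norm_num))
    split_ifs
    · rw [mul_one]
    · rw [mul_zero]
      positivity
  have h2 : HasSum (fun k : ℕ => r d * ((((1 / 3 : ℝ) ^ k * (if d < 4 ^ k then 1 else 0) : ℝ)) : ℂ))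
      (r d * ((∑' k : ℕ, (1 / 3 : ℝ) ^ k * (if d < 4 ^ k then 1 else 0) : ℝ) : ℂ)) :=
    (Complex.hasSum_ofReal.2 hs.hasSum).mul_left _
  have h3 : (fun k : ℕ => (1 / 3 : ℂ) ^ k * (if d < 4 ^ k then r d else 0)) =
      fun k : ℕ => r d * ((((1 / 3 : ℝ) ^ k * (if d < 4 ^ k then 1 else 0) : ℝ)) : ℂ) := by
    funext k
    split_ifs <;> push_cast <;> ring
  rw [h3] at h1
  rw [h1.unique h2, norm_mul, norm_r, one_mul, Complex.norm_real]
  refine le_trans ?_ (le_abs_self _)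
  have h4 := hs.le_tsum K (fun k _ => by positivity)
  rw [if_pos hd, mul_one] at h4
  exact h4

/-- **No bounded operator dominates the entries.** -/
theorem not_dominated {U : H →L[ℂ] H} (hU : ∀ x, ‖U x‖ = ‖x‖) {e : ℕ → H} (he : Orthonormal ℂ e)
    (hUe : ∀ n, U (e n) = e (n + 1)) (S : H →L[ℂ] H)
    (hS : ∀ x y, ‖⟪e y, TU U (e x)⟫_ℂ‖ ≤ (⟪e y, S (e x)⟫_ℂ).re) : False := by
  have key : ∀ K : ℕ, (4 / 3 : ℝ) ^ K ≤ 2 * ‖S‖ := by
    intro K
    set M := 4 ^ K with hM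
    set f : H := ∑ x ∈ Finset.range M, e x with hf
    have hf2 : ‖f‖ ^ 2 = M := by
      have h1 := he.inner_sum (fun _ => (1:ℂ)) (fun _ => (1:ℂ)) (Finset.range M)
      simp only [one_smul, map_one, mul_one, Finset.sum_const, Finset.card_range,
        nsmul_eq_mul] at h1
      rw [← hf, inner_self_eq_norm_sq_to_K] at h1
      have h2 : (((‖f‖ ^ 2 : ℝ)) : ℂ) = ((M : ℝ) : ℂ) := by
        push_cast
        exact h1
      exact_mod_cast h2
    have h3 : (⟪f, S f⟫_ℂ).re ≤ ‖S‖ * M := by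
      calc (⟪f, S f⟫_ℂ).re ≤ ‖⟪f, S f⟫_ℂ‖ := Complex.re_le_norm _
        _ ≤ ‖f‖ * ‖S f‖ := norm_inner_le_norm _ _
        _ ≤ ‖f‖ * (‖S‖ * ‖f‖) := by gcongr; exact S.le_opNorm _
        _ = ‖S‖ * ‖f‖ ^ 2 := by ring
        _ = ‖S‖ * M := by rw [hf2]
    have h4 : (⟪f, S f⟫_ℂ).re =
        ∑ x ∈ Finset.range M, ∑ y ∈ Finset.range M, (⟪e y, S (e x)⟫_ℂ).re := by
      rw [hf, map_sum, inner_sum, Complex.re_sum]
      refine Finset.sum_congr rfl fun x _ => ?_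
      rw [sum_inner, Complex.re_sum]
    have h5 : ∀ x ∈ Finset.range M, ((M - x : ℕ) : ℝ) * (1 / 3 : ℝ) ^ K ≤
        ∑ y ∈ Finset.range M, (⟪e y, S (e x)⟫_ℂ).re := by
      intro x hx
      have hx' := Finset.mem_range.1 hx
      have hnn : ∀ y, 0 ≤ (⟪e y, S (e x)⟫_ℂ).re := fun y => (norm_nonneg _).trans (hS x y)
      calc ((M - x : ℕ) : ℝ) * (1 / 3 : ℝ) ^ K
          = ∑ d ∈ Finset.range (M - x), (1 / 3 : ℝ) ^ K := by simp
        _ ≤ ∑ d ∈ Finset.range (M - x), (⟪e (x + d), S (e x)⟫_ℂ).re := by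
            refine Finset.sum_le_sum fun d hd => ?_
            have hd' := Finset.mem_range.1 hd
            exact (norm_entry hU he hUe x d K (by omega)).trans (hS x (x + d))
        _ ≤ ∑ y ∈ Finset.range M, (⟪e y, S (e x)⟫_ℂ).re := by
            have h6 : ∑ d ∈ Finset.range (M - x), (⟪e (x + d), S (e x)⟫_ℂ).re =
                ∑ y ∈ Finset.Ico x M, (⟪e y, S (e x)⟫_ℂ).re := by
              rw [Finset.sum_Ico_eq_sum_range]
            rw [h6]
            refine Finset.sum_le_sum_of_subset_of_nonneg ?_ (fun y _ _ => hnn y)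
            intro y hy
            rw [Finset.mem_range]
            exact (Finset.mem_Ico.1 hy).2
    have h7 : ((M : ℝ) ^ 2 / 2) * (1 / 3 : ℝ) ^ K ≤ ‖S‖ * M := by
      refine le_trans ?_ h3
      rw [h4]
      refine le_trans ?_ (Finset.sum_le_sum h5)
      rw [← Finset.sum_mul]
      gcongr
      have h8 : ∑ x ∈ Finset.range M, ((M - x : ℕ) : ℝ) = (M : ℝ) * (M + 1) / 2 := by
        have h9 : ∀ m : ℕ, ∑ x ∈ Finset.range m, ((m - x : ℕ) : ℝ) = (m : ℝ) * (m + 1) / 2 := by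
          intro m
          induction m with
          | zero => simp
          | succ m ih =>
            rw [Finset.sum_range_succ']
            simp only [Nat.add_sub_add_right, Nat.sub_zero]
            rw [ih]
            push_cast
            ring
        exact h9 M
      rw [h8]
      have : (0:ℝ) ≤ M := Nat.cast_nonneg _
      nlinarith
    have hMpos : (0:ℝ) < M := by
      rw [hM]
      positivity
    have h10 : (M : ℝ) * (1 / 3 : ℝ) ^ K ≤ 2 * ‖S‖ := by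
      have h11 : (M : ℝ) * ((M : ℝ) * (1 / 3 : ℝ) ^ K) ≤ (M : ℝ) * (2 * ‖S‖) := by nlinarith
      exact le_of_mul_le_mul_left h11 hMpos
    calc (4 / 3 : ℝ) ^ K = (M : ℝ) * (1 / 3 : ℝ) ^ K := by
          rw [hM]
          push_cast
          rw [← mul_pow]
          norm_num
      _ ≤ _ := h10
  obtain ⟨K, hK⟩ := pow_unbounded_of_one_lt (2 * ‖S‖) (show (1:ℝ) < 4 / 3 by norm_num)
  exact absurd (key K) (not_le.2 hK)

end Pool.Agent.Q202.RS
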