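import Pool.Agent.Q202.RS.Weight

/-!
# Operators on weighted `ℓ²` commuting with the right translations are convolutions
-/

set_option autoImplicit false

namespace Pool.Agent.Q202.RS

open Filter Topology
open scoped InnerProductSpace ENNReal

variable {G : Type} [Group G] {w : G → ℝ}

open Classical in
/-- the unit vectors for the weighted space -/
noncomputable def ev (w : G → ℝ) (x : G) : L2 G := lp.single 2 x ((w x : ℝ) : ℂ)

lemma ev_self (x : G) : (ev w x : G → ℂ) x = w x := by
  classical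
  unfold ev
  exact lp.single_apply_self _ _ _

lemma ev_ne {x t : G} (h : t ≠ x) : (ev w x : G → ℂ) t = 0 := by
  classical
  unfold ev
  exact lp.single_apply_ne _ _ _ h

lemma w_ne (hw : Wt w) (t : G) : ((w t : ℝ) : ℂ) ≠ 0 := by
  exact_mod_cast (hw.pos t).ne'

lemma Cv_ev (hw : Wt w) (a : L2 G) (x t : G) :
    (Cv hw a (ev w x) : G → ℂ) t / (w t : ℂ) = (a : G → ℂ) (t * x⁻¹) / (w (t * x⁻¹) : ℂ) := by
  rw [Cv_apply, mul_div_assoc, mul_comm, div_mul_cancel₀ _ (w_ne hw t), tsum_eq_single x]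
  · unfold tm
    rw [ev_self, div_self (w_ne hw x), mul_one]
  · intro y hy
    unfold tm
    rw [ev_ne hy, zero_div, mul_zero]

/-- an operator commuting with right translations is a convolution -/
lemma eq_Cv (hw : Wt w) (T : L2 G →L[ℂ] L2 G)
    (hT : ∀ (s : G) (f h : L2 G),
      (∀ t, (h : G → ℂ) t / (w t : ℂ) = (f : G → ℂ) (t * s) / (w (t * s) : ℂ)) →
      ∀ t, (T h : G → ℂ) t / (w t : ℂ) = (T f : G → ℂ) (t * s) / (w (t * s) : ℂ)) :
    T = Cv hw (T (ev w 1)) := by
  classical
  have h1 : ∀ x, T (ev w x) = Cv hw (T (ev w 1)) (ev w x) := by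
    intro x
    ext t
    have h2 := hT x⁻¹ (ev w 1) (ev w x) (fun t => by
      by_cases h : t = x
      · rw [h, ev_self, mul_inv_cancel, ev_self, div_self (w_ne hw _), div_self (w_ne hw _)]
      · rw [ev_ne h, ev_ne, zero_div, zero_div]
        intro h'
        exact h (mul_inv_eq_one.1 h')) t
    rw [← Cv_ev hw (T (ev w 1)) x t] at h2
    exact (div_left_inj' (w_ne hw t)).1 h2
  ext1 f
  have h3 := lp.hasSum_single (p := 2) (by simp) f
  have h4 : ∀ i, lp.single 2 i ((f : G → ℂ) i) = ((f : G → ℂ) i / (w i : ℂ)) • ev w i := by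
    intro i
    unfold ev
    rw [← lp.single_smul, smul_eq_mul, div_mul_cancel₀ _ (w_ne hw i)]
  have h5 := h3.mapL T
  have h6 := h3.mapL (Cv hw (T (ev w 1)))
  refine h5.unique ?_
  convert h6 using 2 with i
  rw [h4 i, map_smul, map_smul, h1 i]

end Pool.Agent.Q202.RS
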