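import Pool.Agent.Q202.RS.Base

/-!
# Convolution operators on discrete groups which are not regular
-/

set_option autoImplicit false

namespace Pool.Agent.Q202.RS

open Filter Topology
open scoped InnerProductSpace ENNReal

/-- `ℓ²(G)` -/
abbrev L2 (G : Type) : Type := lp (fun _ : G => ℂ) 2

variable {G : Type}

lemma memlp_comp (σ : G ≃ G) (f : L2 G) : Memℓp (fun t => (f : G → ℂ) (σ t)) 2 := by
  have h := (memℓp_gen_iff (p := 2) (by simp)).1 (lp.memℓp f)
  refine (memℓp_gen_iff (by simp)).2 ?_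
  exact (Equiv.summable_iff σ).2 h

/-- composition with a bijection -/
noncomputable def cmpL (σ : G ≃ G) : L2 G →ₗᵢ[ℂ] L2 G where
  toFun f := ⟨fun t => (f : G → ℂ) (σ t), memlp_comp σ f⟩
  map_add' f g := by
    ext t
    rfl
  map_smul' c f := by
    ext t
    rfl
  norm_map' f := by
    have h1 := lp.norm_rpow_eq_tsum (p := 2) (by simp) f
    have h2 := lp.norm_rpow_eq_tsum (p := 2) (by simp)
      (⟨fun t => (f : G → ℂ) (σ t), memlp_comp σ f⟩ : L2 G)
    have h3 : ∑' t, ‖(f : G → ℂ) (σ t)‖ ^ (2 : ℝ≥0∞).toReal = ∑' t, ‖(f : G → ℂ) t‖ ^ (2 : ℝ≥0∞).toReal :=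
      Equiv.tsum_eq σ (fun t => ‖(f : G → ℂ) t‖ ^ (2 : ℝ≥0∞).toReal)
    have h4 : ‖(⟨fun t => (f : G → ℂ) (σ t), memlp_comp σ f⟩ : L2 G)‖ ^ (2 : ℝ≥0∞).toReal =
        ‖f‖ ^ (2 : ℝ≥0∞).toReal := by
      rw [h1, h2]
      exact h3
    have h5 : (2 : ℝ≥0∞).toReal ≠ 0 := by simp
    exact (Real.rpow_left_inj (norm_nonneg _) (norm_nonneg _) h5).1 h4

lemma cmpL_apply (σ : G ≃ G) (f : L2 G) (t : G) : (cmpL σ f : G → ℂ) t = (f : G → ℂ) (σ t) := rfl

/-- the operator commutes with `R` if `U` does -/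
lemma TU_commute {H : Type} [NormedAddCommGroup H] [InnerProductSpace ℂ H] [CompleteSpace H]
    {U : H →L[ℂ] H} (hU : ∀ x, ‖U x‖ = ‖x‖) {R : H →L[ℂ] H} (hR : Commute R U) :
    Commute R (TU U) := by
  have hP : ∀ k, Commute R (((1 / 3 : ℂ) ^ k) • (PQ U (2 * k)).1) := by
    intro k
    rw [PQ_eq]
    refine Commute.smul_right ?_ _
    exact Commute.sum_right _ _ _ fun j _ => (hR.pow_right j).smul_right _
  have h := (summable_TU hU).hasSum
  have h1 := h.mul_left R
  have h2 := h.mul_right R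
  have h3 : (fun k : ℕ => R * (((1 / 3 : ℂ) ^ k) • (PQ U (2 * k)).1)) =
      fun k : ℕ => (((1 / 3 : ℂ) ^ k) • (PQ U (2 * k)).1) * R := funext fun k => hP k
  rw [h3] at h1
  exact h1.unique h2

variable [Group G]

/-- left translation by `g` -/
noncomputable def lt (g : G) : L2 G →L[ℂ] L2 G :=
  (cmpL (Equiv.mulLeft g⁻¹)).toContinuousLinearMap

lemma lt_apply (g : G) (f : L2 G) (t : G) : (lt g f : G → ℂ) t = (f : G → ℂ) (g⁻¹ * t) := rfl

/-- right translation by `s` -/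
noncomputable def rt (s : G) : L2 G →L[ℂ] L2 G :=
  (cmpL (Equiv.mulRight s)).toContinuousLinearMap

lemma rt_apply (s : G) (f : L2 G) (t : G) : (rt s f : G → ℂ) t = (f : G → ℂ) (t * s) := rfl

lemma norm_lt (g : G) (f : L2 G) : ‖lt g f‖ = ‖f‖ := (cmpL (Equiv.mulLeft g⁻¹)).norm_map f

lemma commute_lt_rt (g s : G) : Commute (rt s) (lt g) := by
  show rt s * lt g = lt g * rt s
  ext f t
  show (f : G → ℂ) (g⁻¹ * (t * s)) = (f : G → ℂ) (g⁻¹ * t * s)
  rw [mul_assoc]

/-- `T` is a complex linear combination of positive bounded operators -/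
def Reg (T : L2 G →L[ℂ] L2 G) : Prop :=
  ∃ (n : ℕ) (c : Fin n → ℂ) (S : Fin n → (L2 G →L[ℂ] L2 G)),
    (∀ i, ∀ f : L2 G, (∀ t, 0 ≤ ((f : G → ℂ) t).re ∧ ((f : G → ℂ) t).im = 0) →
      ∀ t, 0 ≤ ((S i f : G → ℂ) t).re ∧ ((S i f : G → ℂ) t).im = 0) ∧
    T = ∑ i, c i • S i

open Classical in
/-- the vectors `δ_(g^n)` -/
noncomputable def del (g : G) (n : ℕ) : L2 G := lp.single 2 (g ^ n) (1 : ℂ)

lemma inner_del (g : G) (n : ℕ) (f : L2 G) : ⟪del g n, f⟫_ℂ = (f : G → ℂ) (g ^ n) := by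
  classical
  unfold del
  rw [lp.inner_single_left]
  simp

lemma del_self (g : G) (n : ℕ) : (del g n : G → ℂ) (g ^ n) = 1 := by
  classical
  unfold del
  exact lp.single_apply_self _ _ _

lemma del_ne (g : G) (n : ℕ) {t : G} (h : t ≠ g ^ n) : (del g n : G → ℂ) t = 0 := by
  classical
  unfold del
  exact lp.single_apply_ne _ _ _ h

/-- **Non-regular convolution operators exist on every group with an element of infinite order.** -/
theorem not_reg (g : G) (hg : Function.Injective fun n : ℕ => g ^ n) : ¬ Reg (TU (lt g)) := by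
  rintro ⟨n, c, S, hS, hT⟩
  have horth : Orthonormal ℂ (del g) := by
    rw [orthonormal_iff_ite]
    intro i j
    rw [inner_del]
    by_cases h : i = j
    · rw [if_pos h, h, del_self]
    · rw [if_neg h]
      exact del_ne g j fun h' => h (hg h')
  have hshift : ∀ n, lt g (del g n) = del g (n + 1) := by
    intro n
    ext t
    rw [lt_apply]
    by_cases h : t = g ^ (n + 1)
    · rw [h, del_self, pow_succ', inv_mul_cancel_left, del_self]
    · rw [del_ne g (n + 1) h, del_ne]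
      intro h'
      apply h
      rw [pow_succ', ← h', mul_inv_cancel_left]
  refine not_dominated (norm_lt g) horth hshift (∑ i, ((‖c i‖ : ℝ) : ℂ) • S i) fun x y => ?_
  have hpos : ∀ i, 0 ≤ (⟪del g y, S i (del g x)⟫_ℂ).re ∧ (⟪del g y, S i (del g x)⟫_ℂ).im = 0 := by
    intro i
    rw [inner_del]
    refine hS i (del g x) (fun t => ?_) _
    by_cases h : t = g ^ x
    · rw [h, del_self]
      simp
    · rw [del_ne g x h]
      simp
  have hnorm : ∀ i, ‖⟪del g y, S i (del g x)⟫_ℂ‖ = (⟪del g y, S i (del g x)⟫_ℂ).re := by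
    intro i
    obtain ⟨h1, h2⟩ := hpos i
    have h3 : ⟪del g y, S i (del g x)⟫_ℂ = (((⟪del g y, S i (del g x)⟫_ℂ).re : ℝ) : ℂ) := by
      apply Complex.ext
      · simp
      · simpa using h2
    rw [h3, Complex.norm_real, Real.norm_of_nonneg h1]
    simp
  rw [hT]
  have e1 : (∑ i, c i • S i) (del g x) = ∑ i, c i • S i (del g x) := by
    rw [ContinuousLinearMap.sum_apply]
    rfl
  have e2 : (∑ i, ((‖c i‖ : ℝ) : ℂ) • S i) (del g x) = ∑ i, ((‖c i‖ : ℝ) : ℂ) • S i (del g x) := by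
    rw [ContinuousLinearMap.sum_apply]
    rfl
  rw [e1, e2, inner_sum, inner_sum, Complex.re_sum]
  refine (norm_sum_le _ _).trans (Finset.sum_le_sum fun i _ => ?_)
  rw [inner_smul_right, inner_smul_right, norm_mul, hnorm, Complex.re_ofReal_mul]

end Pool.Agent.Q202.RS
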