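import Pool.Agent.Q202.RS.Comm

/-!
# The weight `1 + |n|` on the integers
-/

set_option autoImplicit false

namespace Pool.Agent.Q202.RS

open Filter Topology
open scoped InnerProductSpace ENNReal

/-- the integers, written multiplicatively -/
abbrev ZZ : Type := Multiplicative ℤ

/-- the weight -/
noncomputable def wz (t : ZZ) : ℝ := 1 + |(t.toAdd : ℝ)|

lemma wz_wt : Wt wz where
  one t := by
    unfold wz
    linarith [abs_nonneg ((t.toAdd : ℤ) : ℝ)]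
  add x y := by
    unfold wz
    rw [toAdd_mul]
    push_cast
    linarith [abs_add_le ((x.toAdd : ℤ) : ℝ) ((y.toAdd : ℤ) : ℝ)]
  sum := by
    have h1 : Summable fun n : ℕ => (1 / (1 + (n : ℝ))) ^ 2 := by
      have h := (summable_nat_add_iff 1).2 (Real.summable_one_div_nat_pow.2 one_lt_two)
      refine h.congr fun n => ?_
      rw [one_div_pow]
      push_cast
      rw [add_comm]
    have h2 : Summable fun n : ℤ => (1 / (1 + |(n : ℝ)|)) ^ 2 := by
      refine Summable.of_nat_of_neg ?_ ?_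
      · refine h1.congr fun n => ?_
        simp
      · refine h1.congr fun n => ?_
        simp
    exact (Equiv.summable_iff (Multiplicative.toAdd (α := ℤ))).2 h2

lemma wz_mul_le (x y : ZZ) : wz (x * y) ≤ wz x * wz y := by
  unfold wz
  rw [toAdd_mul]
  push_cast
  nlinarith [abs_add_le ((x.toAdd : ℤ) : ℝ) ((y.toAdd : ℤ) : ℝ),
    mul_nonneg (abs_nonneg ((x.toAdd : ℤ) : ℝ)) (abs_nonneg ((y.toAdd : ℤ) : ℝ))]

/-- the functions represented by the elements of the weighted space -/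
noncomputable def vl : L2 ZZ →ₗ[ℂ] (ZZ → ℂ) where
  toFun f t := (f : ZZ → ℂ) t / (wz t : ℂ)
  map_add' f g := by
    funext t
    show ((f + g : L2 ZZ) : ZZ → ℂ) t / _ = (f : ZZ → ℂ) t / _ + (g : ZZ → ℂ) t / _
    rw [lp.coeFn_add, Pi.add_apply, add_div]
  map_smul' c f := by
    funext t
    show ((c • f : L2 ZZ) : ZZ → ℂ) t / _ = c * ((f : ZZ → ℂ) t / _)
    rw [lp.coeFn_smul, Pi.smul_apply, smul_eq_mul, mul_div_assoc]

lemma vl_apply (f : L2 ZZ) (t : ZZ) : vl f t = (f : ZZ → ℂ) t / (wz t : ℂ) := rfl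

lemma vl_inj : Function.Injective vl := by
  intro f g h
  ext t
  have h1 := congrFun h t
  rw [vl_apply, vl_apply] at h1
  exact (div_left_inj' (w_ne wz_wt t)).1 h1

/-- functions with square summable weighted values are represented -/
lemma exists_vl (g : ZZ → ℂ) (h : Summable fun t => (wz t * ‖g t‖) ^ 2) :
    ∃ f : L2 ZZ, vl f = g ∧ ‖f‖ ^ 2 = ∑' t, (wz t * ‖g t‖) ^ 2 := by
  have h1 : ∀ t, ‖(wz t : ℂ) * g t‖ = wz t * ‖g t‖ := by
    intro t
    rw [norm_mul, norm_w wz_wt]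
  have h2 : Summable fun t => ‖(wz t : ℂ) * g t‖ ^ 2 := by
    simpa only [h1] using h
  refine ⟨mk (fun t => (wz t : ℂ) * g t) h2, ?_, ?_⟩
  · funext t
    rw [vl_apply, mk_apply, mul_comm, mul_div_cancel_right₀ _ (w_ne wz_wt t)]
  · rw [← (hasSum_sq (mk (fun t => (wz t : ℂ) * g t) h2)).tsum_eq]
    simp only [mk_apply, h1]

lemma vl_norm (f : L2 ZZ) (t : ZZ) : wz t * ‖vl f t‖ = ‖(f : ZZ → ℂ) t‖ := by
  rw [vl_apply, norm_div, norm_w wz_wt, mul_div_cancel₀ _ (wz_wt.pos t).ne']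

lemma vl_hasSum (f : L2 ZZ) : HasSum (fun t => (wz t * ‖vl f t‖) ^ 2) (‖f‖ ^ 2) := by
  simp only [vl_norm]
  exact hasSum_sq f

lemma vl_solid (f : L2 ZZ) (g : ZZ → ℂ) (h : ∀ t, ‖g t‖ ≤ ‖vl f t‖) :
    ∃ k : L2 ZZ, vl k = g ∧ ‖k‖ ≤ ‖f‖ := by
  have h0 : ∀ t, (wz t * ‖g t‖) ^ 2 ≤ (wz t * ‖vl f t‖) ^ 2 := by
    intro t
    have := (wz_wt.pos t).le
    have := h t
    gcongr
  have h1 : Summable fun t => (wz t * ‖g t‖) ^ 2 :=
    Summable.of_nonneg_of_le (fun t => by positivity) h0 (vl_hasSum f).summable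
  obtain ⟨k, hk, hn⟩ := exists_vl g h1
  refine ⟨k, hk, ?_⟩
  have h2 : ‖k‖ ^ 2 ≤ ‖f‖ ^ 2 := by
    rw [hn]
    exact hasSum_le h0 h1.hasSum (vl_hasSum f)
  exact (sq_le_sq₀ (norm_nonneg _) (norm_nonneg _)).1 h2

lemma vl_right (s : ZZ) (f : L2 ZZ) : ∃ k : L2 ZZ, ∀ t, vl k t = vl f (t * s) := by
  have h1 : Summable fun t => (wz (t * s) * ‖vl f (t * s)‖) ^ 2 :=
    (Equiv.summable_iff (Equiv.mulRight s)).2 (vl_hasSum f).summable
  have h2 : Summable fun t => (wz t * ‖vl f (t * s)‖) ^ 2 := by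
    refine Summable.of_nonneg_of_le (fun t => by positivity) (fun t => ?_) (h1.mul_left (wz s⁻¹ ^ 2))
    have h3 := wz_mul_le (t * s) s⁻¹
    rw [mul_inv_cancel_right] at h3
    rw [← mul_pow]
    have h4 := (wz_wt.pos t).le
    refine pow_le_pow_left₀ (by positivity) ?_ 2
    calc _ ≤ wz (t * s) * wz s⁻¹ * ‖vl f (t * s)‖ := by gcongr
      _ = _ := by ring
  obtain ⟨k, hk, -⟩ := exists_vl _ h2
  exact ⟨k, fun t => congrFun hk t⟩

/-- **Operators commuting with the right translations are regular.** -/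
theorem reg_of_commute (T : L2 ZZ →L[ℂ] L2 ZZ)
    (hT : ∀ (s : ZZ) (f h : L2 ZZ), (∀ t, vl h t = vl f (t * s)) →
      ∀ t, vl (T h) t = vl (T f) (t * s)) : Reg T := by
  rw [eq_Cv wz_wt T hT]
  exact Cv_reg wz_wt _

lemma vl_pos (f : L2 ZZ) (t : ZZ) : (0 ≤ (vl f t).re ∧ (vl f t).im = 0) ↔
    (0 ≤ ((f : ZZ → ℂ) t).re ∧ ((f : ZZ → ℂ) t).im = 0) := by
  have h1 : (vl f t).re = ((f : ZZ → ℂ) t).re / wz t := by
    rw [vl_apply, Complex.div_ofReal_re]
  have h2 : (vl f t).im = ((f : ZZ → ℂ) t).im / wz t := by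
    rw [vl_apply, Complex.div_ofReal_im]
  have h3 := wz_wt.pos t
  rw [h1, h2, div_eq_zero_iff, or_iff_left h3.ne']
  constructor
  · rintro ⟨h4, h5⟩
    refine ⟨?_, h5⟩
    by_contra h6
    exact absurd h4 (not_le.2 (div_neg_of_neg_of_pos (not_le.1 h6) h3))
  · rintro ⟨h4, h5⟩
    exact ⟨div_nonneg h4 h3.le, h5⟩

lemma exists_not_reg : ∃ T : L2 ZZ →L[ℂ] L2 ZZ, ¬ Reg T := by
  refine ⟨TU (lt (Multiplicative.ofAdd (1 : ℤ))), not_reg _ ?_⟩
  intro m n h
  have h1 : (Multiplicative.ofAdd (1 : ℤ)) ^ m = (Multiplicative.ofAdd (1 : ℤ)) ^ n := h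
  rw [← ofAdd_nsmul, ← ofAdd_nsmul] at h1
  have h2 := Multiplicative.ofAdd.injective h1
  simpa using h2

/-- Følner sets of the integers -/
lemma folner (K : Finset ZZ) (ε : ℝ) (hε : 0 < ε) : ∃ F : Finset ZZ, F.Nonempty ∧
    ∀ g ∈ K, (({x | x ∈ F ∧ g * x ∉ F} : Set ZZ).ncard : ℝ) ≤ ε * F.card := by
  classical
  obtain ⟨M, hM⟩ : ∃ M : ℕ, ∀ g ∈ K, g.toAdd.natAbs ≤ M :=
    ⟨K.sup fun g => g.toAdd.natAbs, fun g hg => Finset.le_sup (f := fun g : ZZ => g.toAdd.natAbs) hg⟩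
  obtain ⟨N, hN⟩ := exists_nat_gt ((2 * M + 1 : ℝ) / ε)
  have hN0 : 0 < N := by
    have h1 : (0 : ℝ) < N := lt_trans (by positivity) hN
    exact_mod_cast h1
  have hN1 : (2 * M + 1 : ℝ) ≤ ε * N := by
    rw [div_lt_iff₀ hε] at hN
    linarith
  let F : Finset ZZ := (Finset.Ico (0 : ℤ) N).map Multiplicative.ofAdd.toEmbedding
  have hF : ∀ x : ZZ, x ∈ F ↔ 0 ≤ x.toAdd ∧ x.toAdd < N := by
    intro x
    constructor
    · intro h
      obtain ⟨y, hy, rfl⟩ := Finset.mem_map.1 h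
      exact Finset.mem_Ico.1 hy
    · intro h
      exact Finset.mem_map.2 ⟨x.toAdd, Finset.mem_Ico.2 h, rfl⟩
  have hcard : F.card = N := by
    rw [Finset.card_map, Int.card_Ico]
    simp
  refine ⟨F, ?_, fun g hg => ?_⟩
  · rw [← Finset.card_pos, hcard]
    exact hN0
  · rw [hcard]
    refine le_trans ?_ hN1
    let B : Finset ZZ := ((Finset.Ico (0 : ℤ) M) ∪ (Finset.Ico ((N : ℤ) - M) N)).map
      Multiplicative.ofAdd.toEmbedding
    have hsub : ({x | x ∈ F ∧ g * x ∉ F} : Set ZZ) ⊆ (B : Set ZZ) := by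
      rintro x ⟨h1, h2⟩
      rw [hF] at h1 h2
      rw [toAdd_mul] at h2
      have h3 := hM g hg
      refine Finset.mem_coe.2 (Finset.mem_map.2 ⟨x.toAdd, ?_, rfl⟩)
      rw [Finset.mem_union, Finset.mem_Ico, Finset.mem_Ico]
      omega
    have h1 : ({x | x ∈ F ∧ g * x ∉ F} : Set ZZ).ncard ≤ B.card := by
      rw [← Set.ncard_coe_finset]
      exact Set.ncard_le_ncard hsub (Finset.finite_toSet B)
    have h2 : B.card ≤ 2 * M := by
      rw [Finset.card_map]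
      refine (Finset.card_union_le _ _).trans ?_
      rw [Int.card_Ico, Int.card_Ico]
      omega
    have h3 : (({x | x ∈ F ∧ g * x ∉ F} : Set ZZ).ncard : ℝ) ≤ ((2 * M : ℕ) : ℝ) := by
      exact_mod_cast h1.trans h2
    push_cast at h3
    linarith

end Pool.Agent.Q202.RS
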