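import Pool.Agent.Q202.RS.Group

/-!
# Weighted `ℓ²` convolution algebras on discrete groups
-/

set_option autoImplicit false

namespace Pool.Agent.Q202.RS

open Filter Topology
open scoped InnerProductSpace ENNReal

/-- weights -/
structure Wt {G : Type} [Group G] (w : G → ℝ) : Prop where
  one : ∀ t, 1 ≤ w t
  add : ∀ x y, w (x * y) ≤ w x + w y
  sum : Summable fun t => (1 / w t) ^ 2

lemma hasSum_sq {ι : Type} (f : L2 ι) : HasSum (fun t => ‖(f : ι → ℂ) t‖ ^ 2) (‖f‖ ^ 2) := by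
  have h := lp.hasSum_norm (p := 2) (by simp) f
  simpa using h

/-- a square summable family as an element of `ℓ²` -/
noncomputable def mk {ι : Type} (c : ι → ℂ) (h : Summable fun t => ‖c t‖ ^ 2) : L2 ι :=
  ⟨c, by
    refine (memℓp_gen_iff (by simp)).2 ?_
    simpa using h⟩

lemma mk_apply {ι : Type} (c : ι → ℂ) (h : Summable fun t => ‖c t‖ ^ 2) (t : ι) :
    (mk c h : ι → ℂ) t = c t := rfl

/-- Cauchy-Schwarz for series -/
lemma cs {ι : Type} {k p : ι → ℝ} (hk : ∀ i, 0 ≤ k i) (hp : ∀ i, 0 ≤ p i)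
    (hk2 : Summable fun i => k i ^ 2) (hp2 : Summable fun i => p i ^ 2) :
    (Summable fun i => k i * p i) ∧
      (∑' i, k i * p i) ^ 2 ≤ (∑' i, k i ^ 2) * ∑' i, p i ^ 2 := by
  have h := Real.summable_and_inner_le_Lp_mul_Lq_tsum_of_nonneg (p := 2) (q := 2)
    Real.HolderConjugate.two_two hk hp (by simpa using hk2) (by simpa using hp2)
  refine ⟨h.1, ?_⟩
  have h0 : 0 ≤ ∑' i, k i * p i := tsum_nonneg fun i => mul_nonneg (hk i) (hp i)
  have h1 : 0 ≤ ∑' i, k i ^ 2 := tsum_nonneg fun i => by positivity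
  have h2 : 0 ≤ ∑' i, p i ^ 2 := tsum_nonneg fun i => by positivity
  have h3 := h.2
  simp only [Real.rpow_two] at h3
  rw [← Real.sqrt_eq_rpow, ← Real.sqrt_eq_rpow, ← Real.sqrt_mul h1] at h3
  calc _ ≤ (Real.sqrt ((∑' i, k i ^ 2) * ∑' i, p i ^ 2)) ^ 2 := by gcongr
    _ = _ := Real.sq_sqrt (mul_nonneg h1 h2)

variable {G : Type} [Group G] {w : G → ℝ}

/-- the equivalence `(t, x) ↦ (t x⁻¹, x)` -/
def eqv (G : Type) [Group G] : G × G ≃ G × G where
  toFun q := (q.1 * q.2⁻¹, q.2)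
  invFun q := (q.1 * q.2, q.2)
  left_inv q := by simp
  right_inv q := by simp

/-- terms of the convolution -/
noncomputable def tm (w : G → ℝ) (a f : L2 G) (t x : G) : ℂ :=
  ((a : G → ℂ) (t * x⁻¹) / (w (t * x⁻¹) : ℂ)) * ((f : G → ℂ) x / (w x : ℂ))

lemma Wt.pos (hw : Wt w) (t : G) : 0 < w t := lt_of_lt_of_le one_pos (hw.one t)

lemma Wt.sum_shift (hw : Wt w) (t : G) : Summable fun x => (1 / w (t * x⁻¹)) ^ 2 :=
  (Equiv.summable_iff ((Equiv.inv G).trans (Equiv.mulLeft t))).2 hw.sum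

lemma Wt.tsum_shift (_hw : Wt w) (t : G) :
    ∑' x, (1 / w (t * x⁻¹)) ^ 2 = ∑' x, (1 / w x) ^ 2 :=
  Equiv.tsum_eq ((Equiv.inv G).trans (Equiv.mulLeft t)) (fun x => (1 / w x) ^ 2)

/-- the products -/
noncomputable def pr (a f : L2 G) (t x : G) : ℝ := ‖(a : G → ℂ) (t * x⁻¹)‖ * ‖(f : G → ℂ) x‖

lemma hasSum_pr (a f : L2 G) :
    HasSum (fun q : G × G => pr a f q.1 q.2 ^ 2) (‖a‖ ^ 2 * ‖f‖ ^ 2) := by
  have h1 : HasSum (fun q : G × G => ‖(a : G → ℂ) q.1‖ ^ 2 * ‖(f : G → ℂ) q.2‖ ^ 2)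
      (‖a‖ ^ 2 * ‖f‖ ^ 2) := by
    refine (hasSum_sq a).mul (hasSum_sq f) ?_
    exact (hasSum_sq a).summable.mul_of_nonneg (hasSum_sq f).summable
      (fun _ => by positivity) (fun _ => by positivity)
  have h2 := (Equiv.hasSum_iff (eqv G)).2 h1
  have h3 : (fun q : G × G => pr a f q.1 q.2 ^ 2) =
      (fun q : G × G => ‖(a : G → ℂ) q.1‖ ^ 2 * ‖(f : G → ℂ) q.2‖ ^ 2) ∘ (eqv G) := by
    funext q
    show (‖(a : G → ℂ) (q.1 * q.2⁻¹)‖ * ‖(f : G → ℂ) q.2‖) ^ 2 =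
      ‖(a : G → ℂ) (q.1 * q.2⁻¹)‖ ^ 2 * ‖(f : G → ℂ) q.2‖ ^ 2
    ring
  rw [h3]
  exact h2

lemma summable_pr (a f : L2 G) (t : G) : Summable fun x => pr a f t x ^ 2 :=
  (hasSum_pr a f).summable.prod_factor t

lemma hasSum_pr' (a f : L2 G) : HasSum (fun t => ∑' x, pr a f t x ^ 2) (‖a‖ ^ 2 * ‖f‖ ^ 2) :=
  (hasSum_pr a f).prod_fiberwise fun t => (summable_pr a f t).hasSum

lemma norm_w (hw : Wt w) (t : G) : ‖(w t : ℂ)‖ = w t := by
  rw [Complex.norm_real, Real.norm_of_nonneg (hw.pos t).le]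

lemma norm_tm_le (hw : Wt w) (a f : L2 G) (t x : G) :
    w t * ‖tm w a f t x‖ ≤ (1 / w x + 1 / w (t * x⁻¹)) * pr a f t x := by
  have h1 := hw.add (t * x⁻¹) x
  rw [inv_mul_cancel_right] at h1
  have h2 := hw.pos (t * x⁻¹)
  have h3 := hw.pos x
  unfold tm pr
  rw [norm_mul, norm_div, norm_div, norm_w hw, norm_w hw]
  have h4 : ‖(a : G → ℂ) (t * x⁻¹)‖ / w (t * x⁻¹) * (‖(f : G → ℂ) x‖ / w x) =
      (1 / (w (t * x⁻¹) * w x)) * (‖(a : G → ℂ) (t * x⁻¹)‖ * ‖(f : G → ℂ) x‖) := by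
    field_simp
  rw [h4, ← mul_assoc]
  refine mul_le_mul_of_nonneg_right ?_ (by positivity)
  have h5 : 1 / w x + 1 / w (t * x⁻¹) = (w (t * x⁻¹) + w x) * (1 / (w (t * x⁻¹) * w x)) := by
    field_simp
  rw [h5]
  gcongr

lemma kernel_sum (hw : Wt w) (t : G) :
    (Summable fun x => (1 / w x + 1 / w (t * x⁻¹)) ^ 2) ∧
      ∑' x, (1 / w x + 1 / w (t * x⁻¹)) ^ 2 ≤ 4 * ∑' x, (1 / w x) ^ 2 := by
  have h1 : HasSum (fun x => 2 * (1 / w x) ^ 2 + 2 * (1 / w (t * x⁻¹)) ^ 2)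
      (2 * (∑' x, (1 / w x) ^ 2) + 2 * ∑' x, (1 / w x) ^ 2) := by
    refine (hw.sum.hasSum.mul_left 2).add (HasSum.mul_left 2 ?_)
    rw [← hw.tsum_shift t]
    exact (hw.sum_shift t).hasSum
  have h2 : ∀ x, (1 / w x + 1 / w (t * x⁻¹)) ^ 2 ≤ 2 * (1 / w x) ^ 2 + 2 * (1 / w (t * x⁻¹)) ^ 2 := by
    intro x
    nlinarith [sq_nonneg (1 / w x - 1 / w (t * x⁻¹))]
  have h3 : Summable fun x => (1 / w x + 1 / w (t * x⁻¹)) ^ 2 :=
    Summable.of_nonneg_of_le (fun x => by positivity) h2 h1.summable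
  refine ⟨h3, ?_⟩
  have h4 := hasSum_le h2 h3.hasSum h1
  linarith

lemma tm_summable (hw : Wt w) (a f : L2 G) (t : G) :
    (Summable fun x => ‖tm w a f t x‖) ∧
      (w t * ∑' x, ‖tm w a f t x‖) ^ 2 ≤
        (4 * ∑' x, (1 / w x) ^ 2) * ∑' x, pr a f t x ^ 2 := by
  have hk : ∀ x, 0 ≤ 1 / w x + 1 / w (t * x⁻¹) := fun x => by
    have := hw.pos x
    have := hw.pos (t * x⁻¹)
    positivity
  have hp : ∀ x, 0 ≤ pr a f t x := fun x => mul_nonneg (norm_nonneg _) (norm_nonneg _)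
  obtain ⟨h1, h2⟩ := kernel_sum hw t
  obtain ⟨h3, h4⟩ := cs hk hp h1 (summable_pr a f t)
  have hwt := hw.pos t
  have h5 : Summable fun x => w t * ‖tm w a f t x‖ :=
    Summable.of_nonneg_of_le (fun x => by positivity) (fun x => norm_tm_le hw a f t x) h3
  have h6 : Summable fun x => ‖tm w a f t x‖ := (summable_mul_left_iff hwt.ne').1 h5
  refine ⟨h6, ?_⟩
  rw [← tsum_mul_left]
  have h7 : ∑' x, w t * ‖tm w a f t x‖ ≤ ∑' x, (1 / w x + 1 / w (t * x⁻¹)) * pr a f t x :=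
    Summable.tsum_le_tsum (fun x => norm_tm_le hw a f t x) h5 h3
  have h8 : 0 ≤ ∑' x, w t * ‖tm w a f t x‖ := tsum_nonneg fun x => by positivity
  calc (∑' x, w t * ‖tm w a f t x‖) ^ 2
      ≤ (∑' x, (1 / w x + 1 / w (t * x⁻¹)) * pr a f t x) ^ 2 := by gcongr
    _ ≤ _ := h4
    _ ≤ _ := by
        gcongr

/-- the convolution, as a function -/
noncomputable def cv (w : G → ℝ) (a f : L2 G) (t : G) : ℂ := (w t : ℂ) * ∑' x, tm w a f t x

lemma norm_cv_sq (hw : Wt w) (a f : L2 G) (t : G) :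
    ‖cv w a f t‖ ^ 2 ≤ (4 * ∑' x, (1 / w x) ^ 2) * ∑' x, pr a f t x ^ 2 := by
  refine le_trans ?_ (tm_summable hw a f t).2
  unfold cv
  rw [norm_mul, norm_w hw]
  have h1 := norm_tsum_le_tsum_norm (tm_summable hw a f t).1
  have h2 := (hw.pos t).le
  gcongr

lemma summable_cv (hw : Wt w) (a f : L2 G) : Summable fun t => ‖cv w a f t‖ ^ 2 :=
  Summable.of_nonneg_of_le (fun t => by positivity) (norm_cv_sq hw a f)
    ((hasSum_pr' a f).summable.mul_left _)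

lemma norm_cv_le (hw : Wt w) (a f : L2 G) :
    ‖mk (cv w a f) (summable_cv hw a f)‖ ^ 2 ≤
      (4 * ∑' x, (1 / w x) ^ 2) * (‖a‖ ^ 2 * ‖f‖ ^ 2) :=
  hasSum_le (norm_cv_sq hw a f) (hasSum_sq (mk (cv w a f) (summable_cv hw a f)))
    ((hasSum_pr' a f).mul_left _)

lemma tm_add_right (a f g : L2 G) (t x : G) : tm w a (f + g) t x = tm w a f t x + tm w a g t x := by
  unfold tm
  rw [lp.coeFn_add, Pi.add_apply]
  ring

lemma tm_smul_right (c : ℂ) (a f : L2 G) (t x : G) : tm w a (c • f) t x = c * tm w a f t x := by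
  unfold tm
  rw [lp.coeFn_smul, Pi.smul_apply, smul_eq_mul]
  ring

lemma tm_add_left (a b f : L2 G) (t x : G) : tm w (a + b) f t x = tm w a f t x + tm w b f t x := by
  unfold tm
  rw [lp.coeFn_add, Pi.add_apply]
  ring

lemma tm_smul_left (c : ℂ) (a f : L2 G) (t x : G) : tm w (c • a) f t x = c * tm w a f t x := by
  unfold tm
  rw [lp.coeFn_smul, Pi.smul_apply, smul_eq_mul]
  ring

/-- the convolution operator -/
noncomputable def Cv (hw : Wt w) (a : L2 G) : L2 G →L[ℂ] L2 G :=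
  LinearMap.mkContinuous
    { toFun := fun f => mk (cv w a f) (summable_cv hw a f)
      map_add' := fun f g => by
        ext t
        rw [mk_apply, lp.coeFn_add, Pi.add_apply, mk_apply, mk_apply]
        unfold cv
        rw [← mul_add, ← (tm_summable hw a f t).1.of_norm.tsum_add (tm_summable hw a g t).1.of_norm]
        simp only [tm_add_right]
      map_smul' := fun c f => by
        ext t
        rw [mk_apply, lp.coeFn_smul, Pi.smul_apply, mk_apply]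
        unfold cv
        simp only [tm_smul_right, RingHom.id_apply, smul_eq_mul]
        rw [tsum_mul_left]
        ring } (Real.sqrt (4 * ∑' x, (1 / w x) ^ 2) * ‖a‖) (fun f => by
    have h0 : 0 ≤ 4 * ∑' x, (1 / w x) ^ 2 := by
      have : 0 ≤ ∑' x, (1 / w x) ^ 2 := tsum_nonneg fun x => by positivity
      positivity
    have h1 := norm_cv_le hw a f
    have h2 : ‖mk (cv w a f) (summable_cv hw a f)‖ ^ 2 ≤
        (Real.sqrt (4 * ∑' x, (1 / w x) ^ 2) * ‖a‖ * ‖f‖) ^ 2 := by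
      rw [mul_pow, mul_pow, Real.sq_sqrt h0, mul_assoc]
      exact h1
    exact (sq_le_sq₀ (norm_nonneg _) (by positivity)).1 h2)

lemma Cv_apply (hw : Wt w) (a f : L2 G) (t : G) :
    (Cv hw a f : G → ℂ) t = (w t : ℂ) * ∑' x, tm w a f t x := rfl

lemma Cv_add (hw : Wt w) (a b : L2 G) : Cv hw (a + b) = Cv hw a + Cv hw b := by
  ext f t
  show (Cv hw (a + b) f : G → ℂ) t = (Cv hw a f : G → ℂ) t + (Cv hw b f : G → ℂ) t
  rw [Cv_apply, Cv_apply, Cv_apply, ← mul_add,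
    ← (tm_summable hw a f t).1.of_norm.tsum_add (tm_summable hw b f t).1.of_norm]
  simp only [tm_add_left]

lemma Cv_smul (hw : Wt w) (c : ℂ) (a : L2 G) : Cv hw (c • a) = c • Cv hw a := by
  ext f t
  show (Cv hw (c • a) f : G → ℂ) t = c * (Cv hw a f : G → ℂ) t
  rw [Cv_apply, Cv_apply]
  simp only [tm_smul_left]
  rw [tsum_mul_left]
  ring

/-- nonnegative functions -/
def NN {ι : Type} (f : ι → ℂ) : Prop := ∀ t, 0 ≤ (f t).re ∧ (f t).im = 0

lemma NN.eq {ι : Type} {f : ι → ℂ} (h : NN f) (t : ι) : f t = (((f t).re : ℝ) : ℂ) := by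
  apply Complex.ext
  · simp
  · simpa using (h t).2

lemma Cv_pos (hw : Wt w) {a : L2 G} (ha : NN (a : G → ℂ)) {f : L2 G} (hf : NN (f : G → ℂ)) :
    NN (Cv hw a f : G → ℂ) := by
  intro t
  have h1 : ∀ x, tm w a f t x =
      (((((a : G → ℂ) (t * x⁻¹)).re / w (t * x⁻¹)) * (((f : G → ℂ) x).re / w x) : ℝ) : ℂ) := by
    intro x
    unfold tm
    rw [ha.eq (t * x⁻¹), hf.eq x]
    push_cast
    simp
  have h2 : (Cv hw a f : G → ℂ) t = ((w t * ∑' x, ((((a : G → ℂ) (t * x⁻¹)).re / w (t * x⁻¹)) *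
      (((f : G → ℂ) x).re / w x)) : ℝ) : ℂ) := by
    rw [Cv_apply]
    simp only [h1]
    push_cast
    rfl
  rw [h2]
  refine ⟨?_, Complex.ofReal_im _⟩
  rw [Complex.ofReal_re]
  refine mul_nonneg (hw.pos t).le (tsum_nonneg fun x => ?_)
  exact mul_nonneg (div_nonneg (ha _).1 (hw.pos _).le) (div_nonneg (hf _).1 (hw.pos _).le)

/-- decomposition of an element of `ℓ²` -/
lemma exists_decomp {ι : Type} (a : L2 ι) : ∃ b : Fin 4 → L2 ι, (∀ i, NN (b i : ι → ℂ)) ∧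
    a = b 0 + (-1 : ℂ) • b 1 + Complex.I • b 2 + (-Complex.I) • b 3 := by
  have hs : ∀ c : ι → ℝ, (∀ t, 0 ≤ c t ∧ c t ≤ ‖(a : ι → ℂ) t‖) →
      ∃ b : L2 ι, NN (b : ι → ℂ) ∧ ∀ t, (b : ι → ℂ) t = ((c t : ℝ) : ℂ) := by
    intro c hc
    refine ⟨mk (fun t => ((c t : ℝ) : ℂ)) ?_, fun t => ?_, fun t => rfl⟩
    · refine Summable.of_nonneg_of_le (fun t => by positivity) (fun t => ?_) (hasSum_sq a).summable
      rw [Complex.norm_real, Real.norm_of_nonneg (hc t).1]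
      have := (hc t).1
      gcongr
      exact (hc t).2
    · rw [mk_apply]
      exact ⟨by rw [Complex.ofReal_re]; exact (hc t).1, Complex.ofReal_im _⟩
  have hre : ∀ t, |((a : ι → ℂ) t).re| ≤ ‖(a : ι → ℂ) t‖ := fun t => Complex.abs_re_le_norm _
  have him : ∀ t, |((a : ι → ℂ) t).im| ≤ ‖(a : ι → ℂ) t‖ := fun t => Complex.abs_im_le_norm _
  obtain ⟨b0, n0, e0⟩ := hs (fun t => max ((a : ι → ℂ) t).re 0) fun t =>
    ⟨le_max_right _ _, max_le ((le_abs_self _).trans (hre t)) (norm_nonneg _)⟩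
  obtain ⟨b1, n1, e1⟩ := hs (fun t => max (-((a : ι → ℂ) t).re) 0) fun t =>
    ⟨le_max_right _ _, max_le ((neg_le_abs _).trans (hre t)) (norm_nonneg _)⟩
  obtain ⟨b2, n2, e2⟩ := hs (fun t => max ((a : ι → ℂ) t).im 0) fun t =>
    ⟨le_max_right _ _, max_le ((le_abs_self _).trans (him t)) (norm_nonneg _)⟩
  obtain ⟨b3, n3, e3⟩ := hs (fun t => max (-((a : ι → ℂ) t).im) 0) fun t =>
    ⟨le_max_right _ _, max_le ((neg_le_abs _).trans (him t)) (norm_nonneg _)⟩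
  refine ⟨![b0, b1, b2, b3], ?_, ?_⟩
  · intro i
    fin_cases i
    · exact n0
    · exact n1
    · exact n2
    · exact n3
  · ext t
    show (a : ι → ℂ) t = (b0 : ι → ℂ) t + (-1 : ℂ) * (b1 : ι → ℂ) t + Complex.I * (b2 : ι → ℂ) t +
      (-Complex.I) * (b3 : ι → ℂ) t
    rw [e0, e1, e2, e3]
    have m1 : ∀ r : ℝ, max r 0 - max (-r) 0 = r := by
      intro r
      rcases le_total 0 r with h | h
      · rw [max_eq_left h, max_eq_right (by linarith)]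
        ring
      · rw [max_eq_right h, max_eq_left (by linarith)]
        ring
    have hr := m1 ((a : ι → ℂ) t).re
    have hi := m1 ((a : ι → ℂ) t).im
    apply Complex.ext
    · simp
      linarith
    · simp
      linarith

/-- **Convolution operators are regular.** -/
lemma Cv_reg (hw : Wt w) (a : L2 G) : Reg (Cv hw a) := by
  obtain ⟨b, hb, e⟩ := exists_decomp a
  refine ⟨4, ![1, -1, Complex.I, -Complex.I], fun i => Cv hw (b i), fun i f hf => ?_, ?_⟩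
  · exact Cv_pos hw (hb i) hf
  · rw [e, Cv_add, Cv_add, Cv_add, Cv_smul, Cv_smul, Cv_smul, Fin.sum_univ_four]
    simp

end Pool.Agent.Q202.RS
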